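import Pool.Agent.H8.JS.Targets

/-!
# Machines for tilings of squares: the copy
-/

set_option autoImplicit false

namespace Pool.Agent.H32.JS

open Pool.Agent.H69.Sp Pool.Agent.H69.Mt Pool.Agent.H16.TO Pool.Agent.H8.PL Pool.Agent.H8.JS

section
variable {r : ℕ} {T : Type} (U : Bool → Bool → Bool → Bool → T → Prop) (Hh Vv : T → T → Prop)

theorem cp1_loop (x : List Bool) (i c : ℕ) (w : ℕ → Option T) : ∀ n s y : ℕ,
    Ev (S5 (r := r) U Hh Vv x) A5 ⟨.cp1, i, c, 0, n, s, y, 0, w⟩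
      ⟨.cp1, i, c, 0, 0, s + n, y + n, 0, w⟩ n := by
  intro n
  induction n with
  | zero => intro s y; exact Ev.refl _
  | succ n ih =>
    intro s y
    have h1 : Ev (S5 (r := r) U Hh Vv x) A5 ⟨.cp1, i, c, 0, n + 1, s, y, 0, w⟩
        ⟨.cp1, i, c, 0, n, s + 1, y + 1, 0, w⟩ 1 := by
      refine Ev.step (fun d => ?_) (fun h => ?_)
      · simp [S5]
      · simp [A5] at h
    have h2 := ih (s + 1) (y + 1)
    rw [show s + 1 + n = s + (n + 1) by ring, show y + 1 + n = y + (n + 1) by ring] at h2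
    exact (h1.trans h2).mono (by omega)

theorem cp2_loop (x : List Bool) (i c y : ℕ) (w : ℕ → Option T) : ∀ n p : ℕ,
    Ev (S5 (r := r) U Hh Vv x) A5 ⟨.cp2, i, c, 0, p, n, y, 0, w⟩
      ⟨.cp2, i, c, 0, p + n, 0, y, 0, w⟩ n := by
  intro n
  induction n with
  | zero => intro p; exact Ev.refl _
  | succ n ih =>
    intro p
    have h1 : Ev (S5 (r := r) U Hh Vv x) A5 ⟨.cp2, i, c, 0, p, n + 1, y, 0, w⟩
        ⟨.cp2, i, c, 0, p + 1, n, y, 0, w⟩ 1 := by
      refine Ev.step (fun d => ?_) (fun h => ?_)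
      · simp [S5]
      · simp [A5] at h
    have h2 := ih (p + 1)
    rw [show p + 1 + n = p + (n + 1) by ring] at h2
    exact (h1.trans h2).mono (by omega)

end

theorem pf_p3 : J_P3 := by
  intro r T U Hh Vv x i c L w
  have h1 := cp1_loop (r := r) U Hh Vv x i c w L 0 0
  rw [Nat.zero_add] at h1
  have h2 : Ev (S5 (r := r) U Hh Vv x) A5 ⟨.cp1, i, c, 0, 0, L, L, 0, w⟩
      ⟨.cp2, i, c, 0, 0, L, L, 0, w⟩ 1 := by
    refine Ev.step (fun d => ?_) (fun h => ?_)
    · simp [S5]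
    · simp [A5] at h
  have h3 := cp2_loop (r := r) U Hh Vv x i c L w L 0
  rw [Nat.zero_add] at h3
  have h4 : Ev (S5 (r := r) U Hh Vv x) A5 ⟨.cp2, i, c, 0, L, 0, L, 0, w⟩
      ⟨.row true, i, c, 0, L, 0, L, 0, w⟩ 1 := by
    refine Ev.step (fun d => ?_) (fun h => ?_)
    · simp [S5]
    · simp [A5] at h
  exact (((h1.trans h2).trans h3).trans h4).mono (by omega)

end Pool.Agent.H32.JS
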