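import Pool.Agent.H8.JS.Targets

/-!
# The machine for tilings of squares
-/

set_option autoImplicit false

namespace Pool.Agent.H32.JS

open Pool.Agent.H69.Sp Pool.Agent.H69.Mt Pool.Agent.H16.TO Pool.Agent.H8.PL Pool.Agent.H8.JS

theorem pf_p5 (hNU : J_NU) (hP1 : J_P1) (hP2 : J_P2) (hP3 : J_P3) (hC7 : J_C7) (hC8 : J_C8)
    (hG2 : J_G2) : J_P5 := by
  intro r T U Hh Vv x hT hr
  obtain ⟨t0⟩ := hT
  have hm : 1 ≤ num x := by
    have := (hNU.2.2.1 x).1
    have h2 : 1 ≤ 2 ^ x.length := Nat.one_le_two_pow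
    omega
  set m := num x with hmdef
  have e1 := hP1 r T U Hh Vv x
  have e2 : Ev (S5 (r := r) U Hh Vv x) A5
      ⟨.rd, x.length, m, 0, 0, 0, 0, 0, fun _ => none⟩
      ⟨.mul (Fin.last r), x.length, m, 0, 1, 0, 0, 0, fun _ => none⟩ 1 := by
    refine Ev.step (fun d => ?_) (fun h => ?_)
    · simp [S5]
    · simp [A5] at h
  have e3 := hP2 r T U Hh Vv x x.length m (fun _ => none) hm
  have e4 := hP3 r T U Hh Vv x x.length m (m ^ r) (fun _ => none)
  have e := ((e1.trans e2).trans e3).trans e4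
  constructor
  · rw [e.1, hC7 r T U Hh Vv x x.length m (m ^ r) (m ^ r) true (fun _ => none) (fun _ => t0)
      (fun h => by simp at h)]
    exact hG2 T U Hh Vv (m ^ r) (fun _ => t0)
  · have h1 := e.2 _ (hC8 r T U Hh Vv x x.length m (m ^ r) (m ^ r) true (fun _ => none))
    refine h1.mono ?_
    have hL : m ≤ m ^ r := by
      calc m = m ^ 1 := (pow_one m).symm
        _ ≤ m ^ r := Nat.pow_le_pow_right hm hr
    have hsq : m ^ (2 * r) = m ^ r * m ^ r := by rw [two_mul, pow_add]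
    rw [hsq]
    generalize m ^ r = L at hL ⊢
    have hL1 : 1 ≤ L := hm.trans hL
    have hLL : L ≤ L * L := Nat.le_mul_of_pos_left L hL1
    nlinarith [Nat.mul_le_mul_left (8 * r) hLL]

end Pool.Agent.H32.JS
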